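import Pool.Agent.P.MP_6045b2_co.Defs
import Pool.Agent.P.MP_6045b2_co.Asymp

namespace Pool.Agent.Results.MP_6045b2_co.MakerBeatsTwo

open Pool.Agent.P.MP_6045b2_co

/-- For every `k ≥ 6` the constant `c_k = √(2k / log₂(k+1))` exceeds `2`, and for every `c < c_k`
and all large `N`, Maker can build a `q × q` parallelogram lattice with `q ≥ c √(log₂ N)` in the
`(k:k)` game on the `N × N` board. -/
theorem result : ∀ k : ℕ, 6 ≤ k →
    2 < Real.sqrt (2 * (k : ℝ) / Real.logb 2 ((k : ℝ) + 1)) ∧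
      ∀ c : ℝ, c < Real.sqrt (2 * (k : ℝ) / Real.logb 2 ((k : ℝ) + 1)) →
        ∃ N₀ : ℕ, ∀ N : ℕ, N₀ ≤ N → MakerBuilds k N c :=
  fun k hk => ⟨two_lt_threshold k hk, fun c hc => maker_builds k hk c hc⟩

end Pool.Agent.Results.MP_6045b2_co.MakerBeatsTwo
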